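import Mathlib
import Pool.Agent.W200.IK.DD

/-!
# Regular realisation of wreath products over rational function fields of finite fields

Let `G` be any finite group and let `n` be at least the explicit number `((|G| + 2)!)^3`, which
does not depend on a field.  Then for every finite field `κ` the symmetric wreath product
`G ≀ S_n = G^n ⋊ S_n` is the group of a Galois extension of `κ(X)` in which `κ` is algebraically
closed, and `G` is the group of such an extension over an extension of `κ(X)` of degree `n` whose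
Galois closure has group `S_n`.
-/

set_option autoImplicit false

namespace Pool.Agent.Results.MP_7f581e_nt.WreathUniform

open Pool.Agent.H391R2 (Wr)
open Pool.Agent.H391R2.T4 (EG RegSol SymEP symProj SolOver SolDeg regSol_iff sym_degree finite_sym)

/-- The group `G` occurs regularly over the extension `K` of the field `κ`: there is a finite Galois
extension `L` of `K` with Galois group isomorphic to `G` in which `κ` is algebraically closed. -/
def OccursReg (κ K G : Type) [Field κ] [Field K] [Algebra κ K] [Group G] : Prop :=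
  ∃ (L : Type) (_ : Field L) (_ : Algebra K L) (_ : Algebra κ L) (_ : IsScalarTower κ K L),
    FiniteDimensional K L ∧ IsGalois K L ∧ Nonempty ((L ≃ₐ[K] L) ≃* G) ∧
    ∀ y : L, IsAlgebraic κ y → y ∈ Set.range (algebraMap κ L)

/-- There are a finite Galois extension `M` of `K` with an isomorphism `ψ : Gal(M/K) ≃ S_n` and a
point `i` such that `G` occurs regularly over the subfield of `M` fixed by the stabiliser of `i` (an
extension of `K` of degree `n` with Galois closure `M`). -/
def OccursRegInDegree (κ K G : Type) [Field κ] [Field K] [Algebra κ K] [Group G] (n : ℕ) : Prop :=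
  ∃ (M : Type) (_ : Field M) (_ : Algebra K M) (_ : Algebra κ M) (_ : IsScalarTower κ K M)
    (_ : FiniteDimensional K M) (_ : IsGalois K M)
    (ψ : (M ≃ₐ[K] M) ≃* Equiv.Perm (Fin n)) (i : Fin n),
    OccursReg κ (IntermediateField.fixedField
      ((MulAction.stabilizer (Equiv.Perm (Fin n)) i).comap ψ.toMonoidHom)) G

theorem result (G : Type) [Group G] [Finite G] (n : ℕ) (hn : ((Nat.card G + 2).factorial) ^ 3 ≤ n)
    (κ : Type) [Field κ] [Finite κ] :
    OccursReg κ (RatFunc κ) (Wr G n) ∧ OccursRegInDegree κ (RatFunc κ) G n := by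
  have hsub : ∀ a b : (κ ≃ₐ[κ] κ), a = b := fun a b => Subsingleton.elim a b
  let α : G →* (κ ≃ₐ[κ] κ) := 1
  have hcard : Nat.card (κ ≃ₐ[κ] κ) = 1 :=
    Nat.card_eq_one_iff_unique.2 ⟨⟨hsub⟩, ⟨1⟩⟩
  have hbd : Pool.Agent.W200.IK.bd (Nat.card G) (Nat.card (κ ≃ₐ[κ] κ)) ≤ n := by
    rw [hcard]
    exact (Pool.Agent.W200.IK.bd_one_le _ Nat.card_pos).trans hn
  obtain ⟨hn3, hreg0⟩ := Pool.Agent.W200.IK.reg_wreath_fin_bd κ κ G 1 n hbd
  let ε : EG (1 : (κ ≃ₐ[κ] κ) →* MulAut G) n ≃* SymEP α n :=
    { toFun := fun z => ⟨(z.left, 1), fun i => hsub _ _⟩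
      invFun := fun z => ⟨z.1.1, 1⟩
      left_inv := fun z => SemidirectProduct.ext rfl (hsub _ _)
      right_inv := fun z => Subtype.ext (Prod.ext rfl (hsub _ _))
      map_mul' := fun a b => by
        apply Subtype.ext
        apply Prod.ext
        · change a.left * _ = a.left * b.left
          congr 1
        · exact hsub _ _ }
  have h1 : SolOver κ κ (SymEP α n) (symProj α n) (RatFunc κ) True := by
    rw [← regSol_iff]
    obtain ⟨F, i1, i2, i3, i4, i5, i6, i7, i8, γ, hγ, hreg⟩ := hreg0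
    refine ⟨F, i1, i2, i3, i4, i5, i6, i7, i8, γ.trans ε, fun σ x => ?_, hreg⟩
    rw [hγ]
    congr 1
    exact DFunLike.congr_fun (hsub _ _) x
  obtain ⟨M, m1, m2, m3, ψ, m4, m5, h2⟩ := sym_degree α n ⟨0, by omega⟩ True h1
  obtain ⟨F, i1, i2, i3, i4, i5, i6, i7, i8, γ, -, hreg⟩ := h1
  obtain ⟨F', j1, j2, j3, j4, j5, j6, j7, j8, γ', -, hreg'⟩ := h2
  let e : SymEP α n ≃* Wr G n :=
    { toFun := fun z => z.1.1
      invFun := fun x => ⟨(x, 1), fun i => hsub _ _⟩
      left_inv := fun z => Subtype.ext (Prod.ext rfl (hsub _ _))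
      right_inv := fun x => rfl
      map_mul' := fun a b => rfl }
  have h34 : i4 = i3 := Algebra.algebra_ext i4 i3 (fun x =>
    @IsScalarTower.algebraMap_apply κ κ F _ _ _ _ i3 i4 i6 x)
  have h34' : j4 = j3 := Algebra.algebra_ext j4 j3 (fun x =>
    @IsScalarTower.algebraMap_apply κ κ F' _ _ _ _ j3 j4 j6 x)
  subst h34
  subst h34'
  have hfinM : Finite (M ≃ₐ[RatFunc κ] M) := Finite.of_equiv _ ψ.symm.toEquiv
  exact ⟨⟨F, i1, i2, i4, i5, i7, i8, ⟨γ.trans e⟩, hreg trivial⟩, M, m1, m2, m4, m5,
    IsGalois.finiteDimensional_of_finite _ M, m3, ψ, ⟨0, by omega⟩,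
    ⟨F', j1, j2, j4, j5, j7, j8, ⟨γ'⟩, hreg' trivial⟩⟩

end Pool.Agent.Results.MP_7f581e_nt.WreathUniform
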